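import Mathlib
import Pool.Agent.H83.HorseshoeDefs
import Pool.Agent.H83.HorseshoeProof

namespace Pool.Agent.Results.MP_f98b29_gt.HorseshoeElliptic

open Pool.Agent.H83.Horseshoe Filter Topology

/-- **The Smale horseshoe acts elliptically on the ray graph.** Let `f` be a Smale horseshoe map
of the plane with invariant set `Λ = invSet f`. Then `f` fixes a vertex `v` of the ray graph
`𝓡(Λ)`. Consequently every vertex `w` at finite distance from `v` satisfies
`d(w, fⁿ w) ≤ 2 d(v, w)` for all `n`, and its stable translation length `lim d(w, fⁿ w) / n`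
is `0`. -/
theorem result (f : Plane → Plane) (hf : IsHorseshoe f) :
    ∃ v, IsRayClass (invSet f) v ∧ push f v = v ∧
      ∀ w, (rayGraph (invSet f)).Reachable v w →
        (∀ n : ℕ, (rayGraph (invSet f)).dist w ((push f)^[n] w) ≤
          2 * (rayGraph (invSet f)).dist v w) ∧
        Tendsto (fun n : ℕ => ((rayGraph (invSet f)).dist w ((push f)^[n] w) : ℝ) / n)
          atTop (𝓝 0) :=
  main f hf

end Pool.Agent.Results.MP_f98b29_gt.HorseshoeElliptic
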